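import Mathlib
import Pool.Agent.Q232.DC.Stmts
import Pool.Agent.Q232.DC.Final
import Pool.Agent.Q232.DC.TaskApp
import Pool.Agent.Q232.DC.TaskBall
import Pool.Agent.Q232.DC.TaskCS
import Pool.Agent.Q232.DC.TaskCenter
import Pool.Agent.Q232.DC.TaskCode
import Pool.Agent.Q232.DC.DiffFix
import Pool.Agent.Q232.DC.TaskDil
import Pool.Agent.Q232.DC.TaskFirst
import Pool.Agent.Q232.DC.TaskJoin
import Pool.Agent.Q232.DC.TaskLast
import Pool.Agent.Q232.DC.TaskLow
import Pool.Agent.Q232.DC.TaskMid
import Pool.Agent.Q232.DC.TaskNoRect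
import Pool.Agent.Q232.DC.TaskNorm
import Pool.Agent.Q232.DC.TaskPairs
import Pool.Agent.Q232.DC.TaskRect
import Pool.Agent.Q232.DC.TaskSplit
import Pool.Agent.Q232.DC.TaskTransl
import Pool.Agent.Q232.DC.UpFix

/-!
# Distinct difference configurations in free groups (MP_db30a9_co)

For every `n ≥ 2` the maximum size `m n d` of a distinct difference configuration of diameter at most `d` in the
free group of rank `n` is `(2 n - 1) ^ (d / 3 + O(1))`.
-/

set_option autoImplicit false

namespace Pool.Agent.Results.MP_db30a9_co.BoundedError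

open Pool.Agent.Q232.DC

/-- the maximum cardinality of a distinct difference configuration of diameter at most `d` in the free group of
rank `n` (that the maximum is attained is part of the theorem) -/
noncomputable def m (n d : ℕ) : ℕ :=
  sSup {c | ∃ D : Finset (FreeGroup (Fin n)), IsDDC D ∧ Diam D d ∧ D.card = c}

theorem result (n : ℕ) (hn : 2 ≤ n) : ∃ C : ℝ, ∀ d : ℕ,
    IsGreatest {c | ∃ D : Finset (FreeGroup (Fin n)), IsDDC D ∧ Diam D d ∧ D.card = c} (m n d) ∧
    |Real.logb (2 * n - 1) (m n d) - d / 3| ≤ C :=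
  Final.final (TaskCenter.main TaskNorm.main) TaskTransl.main
    (UpFix.main TaskBall.main TaskFirst.main TaskPairs.main TaskCS.main)
    (TaskLow.main TaskRect.main DiffFix.main TaskSplit.main TaskNoRect.main TaskApp.main TaskCode.main
      TaskDil.main TaskLast.main TaskFirst.main TaskMid.main TaskJoin.main) n hn

end Pool.Agent.Results.MP_db30a9_co.BoundedError
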